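import Pool.Agent.H361R2.PP.Iface4

/-! Project PP (helper361): isolated clusters of primes, from the master theorem and the transfer
to indices of primes. -/

set_option autoImplicit false

open Finset

namespace Pool.Agent.H379R2.PP

open Pool.Agent.H361R2.PP

/-- the property of `Icl` for the index `j` -/
def Iso (ε K : ℝ) (m j : ℕ) : Prop :=
  (∀ q : ℕ, q.Prime → (P j : ℝ) - K * Real.log (P j) ≤ q → P j ≤ q) ∧
    (P (j + m) : ℝ) ≤ P j + ε * Real.log (P j) ∧
    (∀ q : ℕ, q.Prime → (q : ℝ) ≤ P j + K * Real.log (P j) →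
      (q : ℝ) ≤ P j + ε * Real.log (P j))

theorem icl_key {ε K : ℝ} (m : ℕ) (hε : 0 < ε) (hK : 0 < K) {X n : ℕ} (hX : 1 ≤ X) (hn : X ≤ n)
    (hn2 : n < 2 * X)
    (hG : Good (k := 1) (m + 1) (fun _ => K + 1) ε (2 * K + 4 + ε) X n)
    (hL1 : (2 * K + 4 + ε) * Real.log X ≤ X) (hL2 : K * Real.log 3 ≤ Real.log X)
    (hL0 : 0 < Real.log X) :
    ∃ a ∈ Icc 1 ⌊(2 * K + 4 + ε) * Real.log X⌋₊, (n + a).Prime ∧
      ∀ j, P j = n + a → Iso ε K m j := by
  classical
  set L := Real.log X with hL
  set N := ⌊(2 * K + 4 + ε) * L⌋₊ with hN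
  obtain ⟨hG1, hG2⟩ := hG
  set A := (Icc 1 N).filter (fun a => CL (K + 1) ε L a ∧ (n + a).Prime) with hA
  have hcard : m + 1 ≤ A.card := by
    have h1 : ((univ : Finset (Fin 1)).filter (fun _ => m + 1 ≤ A.card)).Nonempty := by
      rw [nonempty_iff_ne_empty]
      intro h2
      have h3 : (1 : ℕ) ≤ 4 * ((univ : Finset (Fin 1)).filter (fun _ => m + 1 ≤ A.card)).card := by
        convert hG1 using 3
      rw [h2] at h3
      simp at h3
    obtain ⟨i, hi⟩ := h1
    rw [mem_filter] at hi
    exact hi.2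
  have hAne : A.Nonempty := card_pos.1 (by omega)
  obtain ⟨a, haA, hmin⟩ : ∃ a ∈ A, ∀ b ∈ A, a ≤ b :=
    ⟨A.min' hAne, A.min'_mem hAne, fun b hb => A.min'_le b hb⟩
  have ha := haA
  rw [hA, mem_filter, mem_Icc] at ha
  obtain ⟨⟨ha1, haN⟩, ⟨hc1, hc2⟩, hp⟩ := ha
  have haL : (a : ℝ) ≤ (2 * K + 4 + ε) * L := (Nat.le_floor_iff (by positivity)).1 haN
  refine ⟨a, mem_Icc.2 ⟨ha1, haN⟩, hp, ?_⟩
  intro j hj
  have hnX : (X : ℝ) ≤ n := by exact_mod_cast hn
  have hn2X : (n : ℝ) < 2 * X := by exact_mod_cast hn2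
  have hXpos : (0 : ℝ) < X := by exact_mod_cast hX
  have ha0 : (1 : ℝ) ≤ a := by exact_mod_cast ha1
  have hq : ((P j : ℕ) : ℝ) = n + a := by rw [hj]; push_cast; rfl
  have hqX : (X : ℝ) ≤ (P j : ℝ) := by rw [hq]; linarith
  have hq3 : (P j : ℝ) ≤ 3 * X := by rw [hq]; linarith
  have hlog1 : L ≤ Real.log (P j) := Real.log_le_log hXpos hqX
  have hlog2 : Real.log (P j) ≤ L + Real.log 3 := by
    have h1 := Real.log_le_log (lt_of_lt_of_le hXpos hqX) hq3
    rw [Real.log_mul (by norm_num) hXpos.ne'] at h1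
    linarith
  have hKl : K * Real.log (P j) ≤ K * L + K * Real.log 3 := by
    have := mul_le_mul_of_nonneg_left hlog2 hK.le
    linarith
  have hεl : ε * L ≤ ε * Real.log (P j) := mul_le_mul_of_nonneg_left hlog1 hε.le
  have hεL : 0 < ε * L := by positivity
  have hKL : 0 < K * L := by positivity
  -- primes of the window are in the cluster
  have hwin : ∀ p : ℕ, p.Prime → n < p → (p : ℝ) ≤ n + (2 * K + 4 + ε) * L →
      p - n ∈ A := by
    intro p hpp h1 h2
    have hmem : p - n ∈ Icc 1 N := by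
      rw [mem_Icc]
      refine ⟨by omega, ?_⟩
      apply Nat.le_floor
      rw [Nat.cast_sub h1.le]
      linarith
    have hpn : n + (p - n) = p := by omega
    obtain ⟨_, hcl⟩ := hG2 (p - n) hmem (by rw [hpn]; exact hpp)
    rw [hA, mem_filter]
    exact ⟨hmem, hcl, by rw [hpn]; exact hpp⟩
  refine ⟨?_, ?_, ?_⟩
  · intro q hqp hq1
    by_contra hcon
    push Not at hcon
    have h1 : (n : ℝ) < q := by
      have h2 : (K + 1) * L = K * L + L := by ring
      rw [hq] at hq1
      rw [hq] at hKl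
      linarith
    have h1' : n < q := by exact_mod_cast h1
    have h2 : (q : ℝ) < n + a := by
      rw [← hq]
      exact_mod_cast hcon
    have h3 := hmin _ (hwin q hqp h1' (by linarith))
    rw [hj] at hcon
    omega
  · set x := ⌊(P j : ℝ) + ε * Real.log (P j)⌋₊ with hx
    have hlog0 : 0 ≤ Real.log (P j) := hL0.le.trans hlog1
    have hxle : (x : ℝ) ≤ P j + ε * Real.log (P j) := Nat.floor_le (by positivity)
    have hjc : Nat.count Nat.Prime (n + a) = j := by
      rw [← hj]
      exact Nat.count_nth_of_infinite Nat.infinite_setOfPred_prime j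
    have hsub : A.image (fun b => n + b) ⊆ (Ico (n + a) (x + 1)).filter Nat.Prime := by
      intro p hpI
      obtain ⟨b, hb, rfl⟩ := mem_image.1 hpI
      have hab := hmin b hb
      rw [hA, mem_filter, mem_Icc] at hb
      obtain ⟨⟨hb1, hbN⟩, ⟨hbc1, hbc2⟩, hbp⟩ := hb
      rw [mem_filter, mem_Ico]
      refine ⟨⟨by omega, ?_⟩, hbp⟩
      rw [Nat.lt_succ_iff]
      apply Nat.le_floor
      rw [hq]
      rw [hq] at hεl
      push_cast
      have h2 : (K + 1 + ε) * L = (K + 1) * L + ε * L := by ring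
      linarith
    have hci : (A.image (fun b => n + b)).card = A.card :=
      card_image_of_injective _ (fun b b' h => by simpa using h)
    have hcount : j + (m + 1) ≤ Nat.count Nat.Prime (x + 1) := by
      have hax : n + a ≤ x + 1 := by
        have : n + a ≤ x := by
          apply Nat.le_floor
          rw [hq]
          push_cast
          have : 0 ≤ ε * Real.log ((n : ℝ) + a) := by
            rw [← hq]; positivity
          linarith
        omega
      have h1 : Nat.count Nat.Prime (x + 1) = Nat.count Nat.Prime (n + a) +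
          ((Ico (n + a) (x + 1)).filter Nat.Prime).card := by
        rw [Nat.count_eq_card_filter_range, Nat.count_eq_card_filter_range,
          ← card_union_of_disjoint]
        · congr 1
          ext p
          simp only [mem_filter, mem_union, mem_range, mem_Ico]
          constructor
          · rintro ⟨h1, h2⟩
            by_cases h3 : p < n + a
            · exact Or.inl ⟨h3, h2⟩
            · exact Or.inr ⟨⟨by omega, h1⟩, h2⟩
          · rintro (⟨h1, h2⟩ | ⟨h1, h2⟩)
            · exact ⟨by omega, h2⟩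
            · exact ⟨h1.2, h2⟩
        · rw [disjoint_left]
          intro p hp1 hp2
          rw [mem_filter, mem_range] at hp1
          rw [mem_filter, mem_Ico] at hp2
          omega
      rw [h1, hjc]
      have h2 := card_le_card hsub
      rw [hci] at h2
      omega
    have hlt : P (j + m) < x + 1 := Nat.nth_lt_of_lt_count (by omega)
    have hle : ((P (j + m) : ℕ) : ℝ) ≤ x := by exact_mod_cast (Nat.lt_succ_iff.1 hlt)
    linarith
  · intro q hqp hq1
    by_cases h1 : q ≤ P j
    · have h2 : (q : ℝ) ≤ P j := by exact_mod_cast h1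
      linarith
    · push Not at h1
      rw [hj] at h1
      have h2 : (q : ℝ) ≤ n + (2 * K + 4 + ε) * L := by
        have h3 : (K + 1 + ε) * L = K * L + L + ε * L := by ring
        have h4 : (2 * K + 4 + ε) * L = 2 * (K * L) + 4 * L + ε * L := by ring
        rw [hq] at hq1
        rw [hq] at hKl
        linarith
      have h3 := hwin q hqp (by omega) h2
      rw [hA, mem_filter] at h3
      obtain ⟨_, ⟨h5, h6⟩, _⟩ := h3
      rw [Nat.cast_sub (by omega)] at h6
      have h7 : (K + 1 + ε) * L = (K + 1) * L + ε * L := by ring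
      linarith

theorem icl_of : MasterT → Tra → Icl := by
  classical
  intro hM hT ε K m hε hK
  obtain ⟨c0, hc0, X0, hX0⟩ := hM 1 (m + 1) (fun _ => K + 1) ε (2 * K + 4 + ε) hε (by positivity)
    (fun _ => ⟨by positivity, by linarith⟩)
  obtain ⟨c', hc', hT'⟩ := hT c0 (2 * K + 4 + ε) hc0 (by positivity)
  set Λ := 2 * K + 4 + ε with hΛ
  have hΛ0 : 0 < Λ := by positivity
  have hlog := Real.tendsto_log_atTop.comp (tendsto_natCast_atTop_atTop (R := ℝ))
  have e1 := hlog.eventually_ge_atTop (1 : ℝ)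
  have e2 := hlog.eventually_ge_atTop (K * Real.log 3)
  have e4 : ∀ᶠ X : ℕ in Filter.atTop, Λ * Real.log X ≤ X := by
    have h1 : (fun x : ℝ => Real.log x) =o[Filter.atTop] (fun x : ℝ => x) :=
      Real.isLittleO_log_id_atTop
    have h2 := h1.bound (show (0 : ℝ) < 1 / Λ by positivity)
    have h3 := tendsto_natCast_atTop_atTop (R := ℝ) |>.eventually h2
    filter_upwards [h3, Filter.eventually_ge_atTop 1] with X hX hX1
    have hX1' : (1 : ℝ) ≤ X := by exact_mod_cast hX1
    rw [Real.norm_of_nonneg (Real.log_nonneg hX1'), Real.norm_of_nonneg (by linarith)] at hX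
    calc Λ * Real.log X ≤ Λ * (1 / Λ * X) := mul_le_mul_of_nonneg_left hX hΛ0.le
      _ = X := by field_simp
  obtain ⟨X1, hX1⟩ := Filter.eventually_atTop.1
    ((e1.and e2).and (e4.and (Filter.eventually_ge_atTop 1)))
  obtain ⟨N₀, hN₀⟩ := hT' (max X0 X1)
  refine ⟨c', hc', N₀, fun N hN => ?_⟩
  obtain ⟨X, hX, hR⟩ := hN₀ N hN
  obtain ⟨⟨f1, f2⟩, f3, f4⟩ := hX1 X ((le_max_right _ _).trans hX)
  simp only [Function.comp_apply] at f1 f2
  have h1 := hR (fun q => ∀ j, P j = q → Iso ε K m j) (by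
    refine (hX0 X ((le_max_left _ _).trans hX)).trans ?_
    have h2 : ((Ico X (2 * X)).filter (fun n => Good (k := 1) (m + 1) (fun _ => K + 1) ε Λ X n)) ⊆
        ((Ico X (2 * X)).filter (fun n => ∃ a ∈ Icc 1 ⌊Λ * Real.log X⌋₊,
          (n + a).Prime ∧ ∀ j, P j = n + a → Iso ε K m j)) := by
      intro n hn
      rw [mem_filter, mem_Ico] at hn ⊢
      refine ⟨hn.1, ?_⟩
      exact icl_key m hε hK f4 hn.1.1 hn.1.2 hn.2 f3 f2 (by linarith)
    exact_mod_cast card_le_card h2)
  refine h1.trans ?_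
  have h3 : ((range N).filter (fun j => ∀ i, P i = P j → Iso ε K m i)) ⊆
      ((range N).filter (fun j => (∀ q : ℕ, q.Prime → (P j : ℝ) - K * Real.log (P j) ≤ q →
        P j ≤ q) ∧ (P (j + m) : ℝ) ≤ P j + ε * Real.log (P j) ∧
        (∀ q : ℕ, q.Prime → (q : ℝ) ≤ P j + K * Real.log (P j) →
          (q : ℝ) ≤ P j + ε * Real.log (P j)))) := by
    intro j hj
    rw [mem_filter] at hj ⊢
    exact ⟨hj.1, hj.2 j rfl⟩
  exact_mod_cast card_le_card h3

end Pool.Agent.H379R2.PP
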