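import Pool.Agent.H361R2.PP.Iface3

/-!
Project PP (helper361): the statements `Sm1` (translation of notation) and `Sm3`
(equidistribution in the format of the engine).
-/

set_option autoImplicit false

open Finset

namespace Pool.Agent.H379R2.PP

open Pool.Agent.H410R2 Pool.Agent.H361R2.PP

theorem rho_iff (p a m : ℕ) (hp : 1 ≤ p) : m % p = rho p a ↔ p ∣ m + a := by
  have h1 : a % p < p := Nat.mod_lt _ hp
  have key : (p - a % p) + a ≡ 0 [MOD p] := by
    have h2 : (p - a % p) + a ≡ (p - a % p) + a % p [MOD p] :=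
      Nat.ModEq.add_left _ (Nat.mod_modEq a p).symm
    have h3 : (p - a % p) + a % p = p := by omega
    rw [h3] at h2
    exact h2.trans (by simp [Nat.ModEq])
  have e1 : (m % p = rho p a) ↔ m ≡ p - a % p [MOD p] := by
    unfold rho Nat.ModEq
    exact Iff.rfl
  rw [e1]
  constructor
  · intro h
    have := (h.add_right a).trans key
    exact (Nat.modEq_zero_iff_dvd).1 this
  · intro h
    have h4 : m + a ≡ 0 [MOD p] := (Nat.modEq_zero_iff_dvd).2 h
    exact Nat.ModEq.add_right_cancel' a (h4.trans key.symm)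

theorem sm1 : Sm1 := by
  refine ⟨rho_iff, ?_, ?_⟩
  · intro P a m hP
    unfold EN.rg Pool.Agent.H361R2.PP.rg
    have : (∀ p ∈ P, m % p ≠ rho p a) ↔ (∀ p ∈ P, ¬ p ∣ m + a) := by
      constructor
      · intro h p hp hd
        exact h p hp ((rho_iff p a m (hP p hp)).2 hd)
      · intro h p hp hd
        exact h p hp ((rho_iff p a m (hP p hp)).1 hd)
    by_cases h : ∀ p ∈ P, ¬ p ∣ m + a
    · rw [if_pos (this.2 h), if_pos h]
    · rw [if_neg (fun h' => h (this.1 h')), if_neg h]
  · intro S a m hS
    unfold AC.FF FS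
    refine Finset.sum_congr rfl fun R hR => ?_
    congr 1
    refine Finset.prod_congr rfl fun p hp => ?_
    unfold AC.psi
    by_cases h : p ∣ m + a
    · simp only [if_pos ((rho_iff p a m (hS R hR p hp)).2 h), if_pos h]
    · simp only [if_neg (fun h' => h ((rho_iff p a m (hS R hR p hp)).1 h')), if_neg h]

/-- a representative of a system of classes -/
theorem exists_rep (T : Finset ℕ) (hT : ∀ p ∈ T, p.Prime) (c : ℕ → ℕ) (hc : ∀ p ∈ T, c p < p) :
    ∃ r : ℕ, ∀ p ∈ T, r % p = c p := by
  have hcop : (T : Set ℕ).Pairwise (Function.onFun Nat.Coprime (fun p : ℕ => p)) := by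
    intro p hp q hq hne
    exact (Nat.coprime_primes (hT p (by exact_mod_cast hp)) (hT q (by exact_mod_cast hq))).2 hne
  have hne : ∀ p ∈ T, (fun p : ℕ => p) p ≠ 0 := fun p hp => (hT p hp).pos.ne'
  refine ⟨Nat.chineseRemainderOfFinset c (fun p => p) T hne hcop, ?_⟩
  intro p hp
  have h := (Nat.chineseRemainderOfFinset c (fun p => p) T hne hcop).2 p hp
  have h2 : ((Nat.chineseRemainderOfFinset c (fun p => p) T hne hcop : ℕ)) % p = c p % p := h
  rw [h2, Nat.mod_eq_of_lt (hc p hp)]

theorem ok_mod (o : Option ℕ) (p n r : ℕ) (hp : 1 ≤ p) (h : n % p = r % p) :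
    ok o p n ↔ ok o p r := by
  unfold ok
  constructor
  · intro h1 a ha hd
    exact h1 a ha ((rho_iff p a n hp).1 (h.trans ((rho_iff p a r hp).2 hd)))
  · intro h1 a ha hd
    exact h1 a ha ((rho_iff p a r hp).1 (h.symm.trans ((rho_iff p a n hp).2 hd)))

/-- the density of an admissible class -/
theorem kk_of_ok (o : Option ℕ) (p c r : ℕ) (hp : 1 ≤ p) (hr : r % p = c) (h : ok o p r) :
    kk o p c = 1 / ph o p := by
  unfold kk ph
  cases o with
  | none => simp
  | some a =>
    have hne : c ≠ rho p a := by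
      intro e
      exact h a rfl ((rho_iff p a r hp).1 (hr.trans e))
    simp [hne]

theorem kk_of_not_ok (o : Option ℕ) (p c r : ℕ) (hp : 1 ≤ p) (hr : r % p = c) (h : ¬ ok o p r) :
    kk o p c = 0 := by
  unfold ok at h
  push Not at h
  obtain ⟨a, ha, hd⟩ := h
  cases o with
  | none => simp at ha
  | some b =>
    have hab : b = a := by simpa using ha
    subst hab
    have : c = rho p b := hr.symm.trans ((rho_iff p b r hp).2 hd)
    simp [kk, this]

theorem sm3 : Sm3 := by
  intro o P S Ω Er M D0 hP hE hS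
  obtain ⟨hE1, hE2, hE3⟩ := hE
  constructor
  · intro T hT _ c hc
    obtain ⟨r, hr⟩ := exists_rep T (fun p hp => hP p (hT hp)) c hc
    have hsum : ∑ m ∈ (range M).filter (fun m => ∀ p ∈ T, m % p = c p),
        (if m ∈ S then (1 : ℝ) else 0) =
        ((S.filter (fun n => ∀ p ∈ T, n % p = r % p)).card : ℝ) := by
      rw [← Finset.sum_filter, Finset.sum_const, nsmul_eq_mul, mul_one]
      congr 2
      ext n
      simp only [mem_filter, mem_range]
      constructor
      · rintro ⟨⟨_, h1⟩, h2⟩
        exact ⟨h2, fun p hp => (h1 p hp).trans (hr p hp).symm⟩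
      · rintro ⟨h1, h2⟩
        exact ⟨⟨hS n h1, fun p hp => (h2 p hp).trans (hr p hp)⟩, h1⟩
    rw [hsum]
    by_cases hok : ∀ p ∈ T, ok o p r
    · have := hE3 T hT r hok
      have hprod : ∏ p ∈ T, kk o p (c p) = 1 / ∏ p ∈ T, ph o p := by
        rw [← Finset.prod_const_one (s := T), ← Finset.prod_div_distrib]
        exact Finset.prod_congr rfl fun p hp =>
          kk_of_ok o p (c p) r (hP p (hT hp)).one_lt.le (hr p hp) (hok p hp)
      rw [hprod, mul_one_div]
      exact this
    · push Not at hok
      obtain ⟨p, hp, hno⟩ := hok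
      have hp1 : 1 ≤ p := (hP p (hT hp)).one_lt.le
      have h0 : ∏ p ∈ T, kk o p (c p) = 0 :=
        Finset.prod_eq_zero hp (kk_of_not_ok o p (c p) r hp1 (hr p hp) hno)
      have h1 : S.filter (fun n => ∀ p ∈ T, n % p = r % p) = ∅ := by
        rw [Finset.filter_eq_empty_iff]
        intro n hn h
        exact hno ((ok_mod o p n r hp1 (h p hp)).1 (hE1 n hn p (hT hp)))
      rw [h0, h1]
      simpa using hE2 T
  · intro p hp c hcp
    have hp2 : (2 : ℝ) ≤ p := by exact_mod_cast (hP p hp).two_le
    have hp1 : (0 : ℝ) < (p : ℝ) - 1 := by linarith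
    have hp0 : (0 : ℝ) < (p : ℝ) := by linarith
    unfold kk ee
    cases o with
    | none =>
      refine ⟨by positivity, ?_, ?_⟩
      · exact one_div_le_one_div_of_le hp1 (by linarith)
      · intro _
        simp only [sub_self, abs_zero]
        positivity
    | some a =>
      by_cases h : c = rho p a
      · simp only [h, if_true]
        refine ⟨le_refl _, by positivity, fun h' => absurd rfl h'⟩
      · simp only [h, if_false]
        refine ⟨by positivity, le_refl _, fun _ => ?_⟩
        have e : 1 / ((p : ℝ) - 1) - 1 / (p : ℝ) = 1 / (((p : ℝ) - 1) * p) := by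
          field_simp
          ring
        rw [e, abs_of_pos (by positivity)]
        apply one_div_le_one_div_of_le (by positivity)
        nlinarith

end Pool.Agent.H379R2.PP
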